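import Pool.Agent.Helper4.HZ.Goals

/-!
# MP_af40fb_al: the Dirichlet series of a product set (packet ZPR)
-/

set_option autoImplicit false

namespace Pool.Agent.Helper69.HZ

open Pool.Agent.Helper4.HZ

theorem ZPR_holds : S_ZPR := by
  intro s A B
  let P : Set ℕ := {n | ∃ a ∈ A, ∃ b ∈ B, n = a * b}
  let f : A × B → P := fun q => ⟨(q.1 : ℕ) * (q.2 : ℕ), q.1, q.1.2, q.2, q.2.2, rfl⟩
  have hf : Function.Surjective f := by
    rintro ⟨n, a, ha, b, hb, rfl⟩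
    exact ⟨(⟨a, ha⟩, ⟨b, hb⟩), rfl⟩
  have h1 : Z s P ≤ ∑' q : A × B, ENNReal.ofReal ((((f q : P) : ℕ) : ℝ) ^ (-s)) :=
    ENNReal.tsum_le_tsum_comp_of_surjective hf (fun n : P => ENNReal.ofReal (((n : ℕ) : ℝ) ^ (-s)))
  have h2 : ∀ q : A × B, ENNReal.ofReal ((((f q : P) : ℕ) : ℝ) ^ (-s)) =
      ENNReal.ofReal (((q.1 : ℕ) : ℝ) ^ (-s)) * ENNReal.ofReal (((q.2 : ℕ) : ℝ) ^ (-s)) := by
    intro q
    rw [← ENNReal.ofReal_mul (by positivity)]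
    congr 1
    have : (((f q : P) : ℕ) : ℝ) = ((q.1 : ℕ) : ℝ) * ((q.2 : ℕ) : ℝ) := by
      change (((q.1 : ℕ) * (q.2 : ℕ) : ℕ) : ℝ) = _
      push_cast
      rfl
    rw [this, Real.mul_rpow (by positivity) (by positivity)]
  refine h1.trans (le_of_eq ?_)
  rw [tsum_congr h2, ENNReal.tsum_prod']
  unfold Z
  simp_rw [ENNReal.tsum_mul_left, ENNReal.tsum_mul_right]

end Pool.Agent.Helper69.HZ
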